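import Pool.Agent.N963.GN.Stm2
import Pool.Agent.H24R2.JP.Had
import Pool.Agent.Y275.GL.Had1

set_option autoImplicit false

/-!
# GN/H1: factorisation of a function of order 3/2 with finitely many non-real zeros (helper186)
-/

namespace Pool.Agent.N186.GN

open Complex Filter Topology MeasureTheory Polynomial Metric
open scoped ComplexConjugate
open Pool.Agent.N963.GN Pool.Agent.H24R2.JP

theorem one_le_pw (z : ℂ) : 1 ≤ (1 + ‖z‖) ^ (3 / 2 : ℝ) :=
  Real.one_le_rpow (by linarith [norm_nonneg z]) (by norm_num)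

theorem gro_shift {f : ℂ → ℂ} (hf : Gro f) (β : ℂ) : Gro (fun z => f (z + β)) := by
  obtain ⟨C, hC, h⟩ := hf
  refine ⟨C * (1 + ‖β‖) ^ (3 / 2 : ℝ), by positivity, fun z => (h _).trans ?_⟩
  apply Real.exp_le_exp.2
  rw [mul_assoc]
  refine mul_le_mul_of_nonneg_left ?_ hC
  rw [← Real.mul_rpow (by positivity) (by positivity)]
  apply Real.rpow_le_rpow (by positivity) _ (by norm_num)
  have h1 := norm_add_le z β
  nlinarith [norm_nonneg z, norm_nonneg β]

theorem poly_low {P : ℝ[X]} (hP : P ≠ 0) : ∃ R c : ℝ, 0 < c ∧ ∀ w : ℂ, R ≤ ‖w‖ →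
    c ≤ ‖aeval w P‖ := by
  have hP' : P.map (algebraMap ℝ ℂ) ≠ 0 :=
    (Polynomial.map_ne_zero_iff (algebraMap ℝ ℂ).injective).2 hP
  have e : ∀ w : ℂ, aeval w P = (P.map (algebraMap ℝ ℂ)).eval w := by
    intro w
    rw [Polynomial.eval_map_algebraMap]
  by_cases hd : 0 < (P.map (algebraMap ℝ ℂ)).degree
  · have h1 : Tendsto (fun w : ℂ => ‖(P.map (algebraMap ℝ ℂ)).eval w‖) (Bornology.cobounded ℂ) atTop :=
      Polynomial.tendsto_norm_atTop _ hd tendsto_norm_cobounded_atTop
    have h2 := h1.eventually_ge_atTop 1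
    rw [← comap_norm_atTop, Filter.eventually_comap] at h2
    obtain ⟨R, hR⟩ := Filter.eventually_atTop.1 h2
    refine ⟨R, 1, one_pos, fun w hw => ?_⟩
    rw [e]
    exact hR _ hw w rfl
  · have h1 : (P.map (algebraMap ℝ ℂ)).degree ≤ 0 := not_lt.1 hd
    have h2 := Polynomial.eq_C_of_degree_le_zero h1
    have h3 : (P.map (algebraMap ℝ ℂ)).coeff 0 ≠ 0 := by
      intro h
      rw [h, Polynomial.C_0] at h2
      exact hP' h2
    refine ⟨0, ‖(P.map (algebraMap ℝ ℂ)).coeff 0‖, norm_pos_iff.2 h3, fun w _ => ?_⟩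
    rw [e, h2]
    simp

theorem gro_div {F G : ℂ → ℂ} {P : ℝ[X]} (hP : P ≠ 0) (hF : Gro F) (hG : Continuous G)
    (hFG : ∀ w, F w = aeval w P * G w) : Gro G := by
  obtain ⟨C, hC, h⟩ := hF
  obtain ⟨R, c, hc, hR⟩ := poly_low hP
  obtain ⟨B, hB⟩ := (isCompact_closedBall (0 : ℂ) R).exists_bound_of_continuousOn hG.continuousOn
  refine ⟨C + |Real.log c| + |B|, by positivity, fun w => ?_⟩
  have h1 := one_le_pw w
  set p : ℝ := (1 + ‖w‖) ^ (3 / 2 : ℝ) with hp
  rcases le_total R ‖w‖ with hw | hw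
  · have h2 := hR w hw
    have h3 : ‖G w‖ ≤ Real.exp (C * p) / c := by
      rw [le_div_iff₀ hc]
      calc ‖G w‖ * c ≤ ‖G w‖ * ‖aeval w P‖ := mul_le_mul_of_nonneg_left h2 (norm_nonneg _)
        _ = ‖F w‖ := by rw [hFG, norm_mul, mul_comm]
        _ ≤ _ := h w
    refine h3.trans ?_
    have h4 : Real.exp (C * p) / c = Real.exp (C * p - Real.log c) := by
      rw [Real.exp_sub, Real.exp_log hc]
    rw [h4]
    apply Real.exp_le_exp.2
    have h5 := neg_abs_le (Real.log c)
    have h6 := abs_nonneg (Real.log c)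
    have h7 := abs_nonneg B
    nlinarith
  · have h2 : ‖G w‖ ≤ B := hB w (by simpa using hw)
    have h3 : B ≤ |B| := le_abs_self B
    have h4 := Real.add_one_le_exp ((C + |Real.log c| + |B|) * p)
    have h6 := abs_nonneg (Real.log c)
    have h7 := abs_nonneg B
    nlinarith

theorem poly_dense {P : ℝ[X]} (hP : P ≠ 0) : Dense {w : ℂ | (aeval w P : ℂ) ≠ 0} := by
  refine ((dense_univ (X := ℂ)).sdiff_finite
    ((P.map (algebraMap ℝ ℂ)).roots.toFinset.finite_toSet)).mono ?_
  intro w hw h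
  apply hw.2
  rw [Finset.mem_coe, Multiset.mem_toFinset, Polynomial.mem_roots
    ((Polynomial.map_ne_zero_iff (algebraMap ℝ ℂ).injective).2 hP), Polynomial.IsRoot.def,
    Polynomial.eval_map_algebraMap]
  exact h

theorem nrz_not_zero {f : ℂ → ℂ} (hfin : (NRZ f).Finite) : ∃ z, f z ≠ 0 := by
  by_contra hcon
  push Not at hcon
  have h1 : Set.range (fun n : ℕ => ((n : ℂ) + I)) ⊆ NRZ f := by
    rintro _ ⟨n, rfl⟩
    refine ⟨hcon _, ?_⟩
    simp
  have h2 : (Set.range (fun n : ℕ => ((n : ℂ) + I))).Infinite := by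
    apply Set.infinite_range_of_injective
    intro a b hab
    simpa using hab
  exact h2 (hfin.subset h1)

theorem real_point {f : ℂ → ℂ} (hf : Differentiable ℂ f) (hne : ∃ z, f z ≠ 0) :
    ∃ β : ℝ, f (β : ℂ) ≠ 0 := by
  have han : AnalyticOnNhd ℂ f Set.univ := fun z _ => hf.analyticAt z
  rcases (han 0 (Set.mem_univ _)).eventually_eq_zero_or_eventually_ne_zero with h | h
  · exfalso
    obtain ⟨z, hz'⟩ := hne
    exact hz' (han.eqOn_zero_of_preconnected_of_eventuallyEq_zero isPreconnected_univ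
      (Set.mem_univ 0) h (Set.mem_univ z))
  · have h1 : Tendsto (fun t : ℝ => (t : ℂ)) (𝓝[≠] 0) (𝓝[≠] 0) := by
      rw [tendsto_nhdsWithin_iff]
      constructor
      · have h2 : Tendsto (fun t : ℝ => (t : ℂ)) (𝓝 0) (𝓝 ((0 : ℝ) : ℂ)) :=
          (Continuous.tendsto (by fun_prop) 0)
        rw [Complex.ofReal_zero] at h2
        exact h2.mono_left nhdsWithin_le_nhds
      · filter_upwards [self_mem_nhdsWithin] with t ht h3
        exact ht (by simpa using h3)
    exact (h1.eventually h).exists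

theorem t_H1 : S_H1 := by
  intro f hf hsym hgro hfin ρ
  obtain ⟨β, hβ⟩ := real_point hf (nrz_not_zero hfin)
  obtain ⟨B, hB⟩ : ∃ B : ℝ, ∀ z ∈ NRZ f, ‖z‖ ≤ B := by
    obtain ⟨B, hB⟩ := (hfin.image (fun z => ‖z‖)).bddAbove
    exact ⟨B, fun z hz => hB ⟨z, hz, rfl⟩⟩
  set R : ℝ := |B| + |ρ| + |β| + 1 with hR
  have hR0 : 0 < R := by positivity
  set F : ℂ → ℂ := fun z => f (z + β) with hFdef
  have hFd : Differentiable ℂ F := hf.comp (by fun_prop)
  have hF0 : F 0 ≠ 0 := by simpa [hFdef] using hβ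
  have hFs : ∀ x, F ((starRingEnd ℂ) x) = (starRingEnd ℂ) (F x) := by
    intro x
    simp only [hFdef]
    rw [← hsym, map_add, Complex.conj_ofReal]
  have hFg : Gro F := gro_shift hgro β
  obtain ⟨C, hC, hCb⟩ := id hFg
  obtain ⟨n, hn⟩ := exists_nat_ge
    (∑ᶠ u, (MeromorphicOn.divisor F (closedBall 0 R) u : ℝ) * 1)
  obtain ⟨P, G, hG, hG0, hGb, hFG, hnz⟩ := had_split (M := C * (1 + 2 * R) ^
    (3 / 2 : ℝ)) hR0 n F hFd hF0 hFs (fun w hw => by
      refine (hCb w).trans (Real.exp_le_exp.2 (mul_le_mul_of_nonneg_left ?_ hC))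
      have hw' : ‖w‖ ≤ 2 * R := by simpa using hw
      exact Real.rpow_le_rpow (by positivity) (by linarith) (by norm_num)) hn
  have hP0 : P ≠ 0 := by
    rintro rfl
    have := hFG 0
    rw [map_zero, zero_mul] at this
    exact hF0 this
  have hGs : ∀ x, G ((starRingEnd ℂ) x) = (starRingEnd ℂ) (G x) :=
    had_symm (q := fun w => aeval w P) hG.continuous hFG hFs
      (fun x => Polynomial.aeval_conj P x) (poly_dense hP0)
  have hGg : Gro G := gro_div hP0 hFg hG.continuous hFG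
  have hG0n : G 0 ≠ 0 := by rw [hG0]; exact hF0
  -- the zeros of `G` are real
  have hGr : ∀ w, G w = 0 → w.im = 0 := by
    intro w hw
    by_contra him
    have h1 : F w = 0 := by rw [hFG, hw, mul_zero]
    have h2 : w + β ∈ NRZ f := ⟨h1, by simpa using him⟩
    have h3 := hB _ h2
    apply hnz w _ hw
    rw [mem_closedBall_zero_iff]
    have h4 : ‖w‖ ≤ ‖w + β‖ + |β| := by
      have := norm_sub_le (w + (β : ℂ)) (β : ℂ)
      rw [add_sub_cancel_right] at this
      simpa using this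
    have h5 := le_abs_self B
    have h6 := abs_nonneg ρ
    rw [hR]
    linarith
  obtain ⟨K, hK, hKb⟩ := id hGg
  obtain ⟨Q, hQ1, hQ2⟩ := Pool.Agent.Y275.GL.had_real hG hG0n hGs hK hKb
  refine ⟨P.comp (Polynomial.X - Polynomial.C β), fun w => G (w - β), ?_, ?_, ?_, ?_, ?_, ?_⟩
  · intro h
    apply hP0
    have h1 : (P.comp (Polynomial.X - Polynomial.C β)).comp (Polynomial.X + Polynomial.C β) = P := by
      rw [Polynomial.comp_assoc]
      simp
    rw [← h1, h, Polynomial.zero_comp]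
  · refine ⟨hG.comp (by fun_prop), ⟨β, by simpa using hG0n⟩,
      fun N => (Q N).comp (Polynomial.X - Polynomial.C (β : ℂ)), ?_, ?_⟩
    · intro N w hw
      rw [Polynomial.IsRoot.def, Polynomial.eval_comp] at hw
      simp only [Polynomial.eval_sub, Polynomial.eval_X, Polynomial.eval_C] at hw
      rcases hQ1 N (w - β) hw with h | h
      · simpa using hGr _ h
      · simpa using h
    · have h1 : TendstoLocallyUniformly (fun (N : ℕ) (w : ℂ) => (Q N).eval (w - β))
          (fun w => G (w - β)) atTop :=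
        hQ2.comp (fun w : ℂ => w - β) (by fun_prop)
      refine h1.congr ?_
      intro N w
      simp [Polynomial.eval_comp]
  · intro z
    rw [← hGs, map_sub, Complex.conj_ofReal]
  · have := gro_shift hGg (-(β : ℂ))
    simpa [sub_eq_add_neg] using this
  · intro w
    have h1 := hFG (w - β)
    simp only [hFdef, sub_add_cancel] at h1
    rw [h1, Polynomial.aeval_comp]
    simp
  · intro w hw
    apply hnz
    rw [mem_closedBall_zero_iff]
    have h4 : ‖w - β‖ ≤ ‖w‖ + |β| := by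
      have := norm_sub_le w (β : ℂ)
      simpa using this
    have h5 := le_abs_self ρ
    have h6 := abs_nonneg B
    rw [hR]
    linarith

end Pool.Agent.N186.GN
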